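import Mathlib

/-!
# The distance spectrum does not determine bipartiteness

Two connected graphs on 20 vertices have the same distance spectrum, one is bipartite and the other
one is not. Both are obtained from a small graph by replacing its vertices by independent sets:

* `Γ`: the path `2 - 0 - 1 - 3` with sets of sizes `3, 2, 14, 1` (classes `0, 1, 2, 3` have sizes
  `2, 14, 3, 1`);
* `Ω`: the graph with edges `01, 02, 04, 13, 24, 34`, which contains the triangle `0 2 4`, with
  sets of sizes `1, 2, 8, 8, 1`.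

If `P` is the matrix that maps a vertex to its class, and `M` the distance matrix of the small graph
plus `2 I`, then `D + 2 I = P M Pᵀ`, so the characteristic polynomial of `D + 2 I` is, up to a power
of `X`, that of `M Pᵀ P`. In both cases one gets `X^16 (X^4 - 40 X^3 + 129 X^2 + 384 X - 1008)`.
-/

set_option autoImplicit false

namespace Pool.Agent.Results.MP_69260a_co.TwentyVertices

open Matrix Polynomial

/-- The distance matrix of a graph. -/
noncomputable def distMatrix {V : Type} (G : SimpleGraph V) : Matrix V V ℝ :=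
  Matrix.of fun u v => (G.dist u v : ℝ)

lemma distMatrix_isHermitian {V : Type} (G : SimpleGraph V) : (distMatrix G).IsHermitian := by
  ext u v
  simp [distMatrix, SimpleGraph.dist_comm]

/-- The distance spectrum: the multiset of the eigenvalues of the distance matrix. -/
noncomputable def distSpectrum {V : Type} [Fintype V] [DecidableEq V] (G : SimpleGraph V) :
    Multiset ℝ :=
  Finset.univ.val.map (distMatrix_isHermitian G).eigenvalues

/-! ### A criterion for distances -/

lemma dist_eq_of {V : Type} [Nonempty V] (G : SimpleGraph V) (f : V → V → ℕ) (h0 : ∀ u, f u u = 0)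
    (h1 : ∀ u v w, G.Adj v w → f u w ≤ f u v + 1)
    (h2 : ∀ u v, u ≠ v → ∃ w, G.Adj w v ∧ f u v = f u w + 1) :
    G.Connected ∧ ∀ u v, G.dist u v = f u v := by
  have hle : ∀ {u v : V} (p : G.Walk u v) (x : V), f x v ≤ f x u + p.length := by
    intro u v p
    induction p with
    | nil => intro x; simp
    | cons h p ih =>
      intro x
      have := ih x
      have := h1 x _ _ h
      rw [SimpleGraph.Walk.length_cons]
      omega
  have hge : ∀ n u v, f u v = n → ∃ p : G.Walk u v, p.length = n := by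
    intro n
    induction n with
    | zero =>
      intro u v h
      by_cases huv : u = v
      · subst huv
        exact ⟨.nil, rfl⟩
      · obtain ⟨w, _, hw⟩ := h2 u v huv
        omega
    | succ n ih =>
      intro u v h
      have huv : u ≠ v := by
        rintro rfl
        rw [h0] at h
        omega
      obtain ⟨w, hadj, hw⟩ := h2 u v huv
      obtain ⟨p, hp⟩ := ih u w (by omega)
      exact ⟨p.concat hadj, by rw [SimpleGraph.Walk.length_concat, hp]⟩
  have hconn : G.Connected := by
    rw [SimpleGraph.connected_iff]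
    refine ⟨fun u v => ?_, inferInstance⟩
    obtain ⟨p, _⟩ := hge _ u v rfl
    exact ⟨p⟩
  refine ⟨hconn, fun u v => ?_⟩
  obtain ⟨p, hp⟩ := hge _ u v rfl
  have h3 := SimpleGraph.dist_le p
  obtain ⟨q, hq⟩ := hconn.exists_walk_length_eq_dist u v
  have h4 := hle q u
  rw [h0] at h4
  omega

/-! ### The two graphs -/

/-- class of a vertex of `Γ`: sizes `2, 14, 3, 1` -/
def c (i : Fin 20) : Fin 4 := if i.val < 2 then 0 else if i.val < 16 then 1 else if i.val < 19 then 2 else 3

/-- class of a vertex of `Ω`: sizes `1, 2, 8, 8, 1` -/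
def d (i : Fin 20) : Fin 5 :=
  if i.val < 1 then 0 else if i.val < 3 then 1 else if i.val < 11 then 2 else if i.val < 19 then 3 else 4

/-- distance matrix plus `2 I` of the path `2 - 0 - 1 - 3` -/
def M : Matrix (Fin 4) (Fin 4) ℕ := !![2, 1, 1, 2; 1, 2, 2, 1; 1, 2, 2, 3; 2, 1, 3, 2]

/-- distance matrix plus `2 I` of the graph with edges `01, 02, 04, 13, 24, 34` -/
def N : Matrix (Fin 5) (Fin 5) ℕ :=
  !![2, 1, 1, 2, 1; 1, 2, 2, 1, 2; 1, 2, 2, 2, 1; 2, 1, 2, 2, 1; 1, 2, 1, 1, 2]

/-- the bipartite graph -/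
def Γ : SimpleGraph (Fin 20) where
  Adj i j := M (c i) (c j) = 1
  symm := ⟨by decide⟩
  loopless := ⟨by decide⟩

/-- the graph with a triangle -/
def Ω : SimpleGraph (Fin 20) where
  Adj i j := N (d i) (d j) = 1
  symm := ⟨by decide⟩
  loopless := ⟨by decide⟩

instance : DecidableRel Γ.Adj := fun i j => inferInstanceAs (Decidable (M (c i) (c j) = 1))
instance : DecidableRel Ω.Adj := fun i j => inferInstanceAs (Decidable (N (d i) (d j) = 1))

/-- distances in `Γ` -/
def f (i j : Fin 20) : ℕ := if i = j then 0 else M (c i) (c j)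

/-- distances in `Ω` -/
def g (i j : Fin 20) : ℕ := if i = j then 0 else N (d i) (d j)

set_option maxRecDepth 100000 in
lemma f1 : ∀ u v w, Γ.Adj v w → f u w ≤ f u v + 1 := by decide +kernel

set_option maxRecDepth 100000 in
lemma f2 : ∀ u v, u ≠ v → ∃ w, Γ.Adj w v ∧ f u v = f u w + 1 := by decide +kernel

set_option maxRecDepth 100000 in
lemma g1 : ∀ u v w, Ω.Adj v w → g u w ≤ g u v + 1 := by decide +kernel

set_option maxRecDepth 100000 in
lemma g2 : ∀ u v, u ≠ v → ∃ w, Ω.Adj w v ∧ g u v = g u w + 1 := by decide +kernel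

lemma Γ_dist : Γ.Connected ∧ ∀ u v, Γ.dist u v = f u v :=
  dist_eq_of Γ f (fun u => by simp [f]) f1 f2

lemma Ω_dist : Ω.Connected ∧ ∀ u v, Ω.dist u v = g u v :=
  dist_eq_of Ω g (fun u => by simp [g]) g1 g2

/-! ### The spectra -/

lemma charpoly_blowup {k : ℕ} (hk : k ≤ 20) (cl : Fin 20 → Fin k) (T : Matrix (Fin k) (Fin k) ℕ)
    (D : Matrix (Fin 20) (Fin 20) ℝ)
    (hD : D = Matrix.of (fun i j => (T (cl i) (cl j) : ℝ)) - Matrix.scalar (Fin 20) 2) :
    D.charpoly = (X ^ (20 - k) * (T.map (Nat.cast : ℕ → ℝ) *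
      Matrix.diagonal fun a => (((Finset.univ.filter fun i => cl i = a).card : ℕ) : ℝ)).charpoly).comp
        (X + C 2) := by
  rw [hD, charpoly_sub_scalar]
  congr 1
  set P : Matrix (Fin 20) (Fin k) ℝ := Matrix.of fun i a => if cl i = a then 1 else 0 with hP
  have h1 : Matrix.of (fun i j => (T (cl i) (cl j) : ℝ)) = P * (T.map (Nat.cast : ℕ → ℝ) * Pᵀ) := by
    ext i j
    simp [hP, Matrix.mul_apply]
  have h2 : T.map (Nat.cast : ℕ → ℝ) * Pᵀ * P = T.map (Nat.cast : ℕ → ℝ) *
      Matrix.diagonal fun a => (((Finset.univ.filter fun i => cl i = a).card : ℕ) : ℝ) := by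
    rw [Matrix.mul_assoc]
    congr 1
    ext a b
    simp only [hP, Matrix.mul_apply, Matrix.transpose_apply, Matrix.of_apply, Matrix.diagonal_apply]
    by_cases hab : a = b
    · subst hab
      rw [if_pos rfl, Finset.card_filter]
      push_cast
      refine Finset.sum_congr rfl fun i _ => ?_
      by_cases h : cl i = a <;> simp [h]
    · rw [if_neg hab]
      refine Finset.sum_eq_zero fun i _ => ?_
      by_cases h : cl i = a
      · simp [h, hab]
      · simp [h]
  rw [h1, charpoly_mul_comm_of_le _ _ (by simpa using hk), h2]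
  simp

lemma small4 : (M.map (Nat.cast : ℕ → ℝ) *
      Matrix.diagonal fun a => (((Finset.univ.filter fun i => c i = a).card : ℕ) : ℝ)).charpoly =
    X ^ 4 - 40 * X ^ 3 + 129 * X ^ 2 + 384 * X - 1008 := by
  have hw : (fun a => (((Finset.univ.filter fun i => c i = a).card : ℕ) : ℝ)) = ![2, 14, 3, 1] := by
    have : (fun a => (Finset.univ.filter fun i => c i = a).card) = ![2, 14, 3, 1] := by decide +kernel
    ext a
    rw [show (Finset.univ.filter fun i => c i = a).card = ![2, 14, 3, 1] a from congrFun this a]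
    fin_cases a <;> simp
  rw [hw]
  have h2 : M.map (Nat.cast : ℕ → ℝ) * Matrix.diagonal ![(2:ℝ), 14, 3, 1] =
      !![4, 14, 3, 2; 2, 28, 6, 1; 2, 28, 6, 3; 4, 14, 9, 2] := by
    ext i j
    rw [Matrix.mul_diagonal]
    fin_cases i <;> fin_cases j <;> simp [M] <;> norm_num
  rw [h2, Matrix.charpoly, Matrix.charmatrix]
  simp [Matrix.det_succ_row_zero, Fin.sum_univ_succ, Fin.succAbove, Matrix.diagonal]
  simp only [map_ofNat]
  ring

lemma small5 : (N.map (Nat.cast : ℕ → ℝ) *
      Matrix.diagonal fun a => (((Finset.univ.filter fun i => d i = a).card : ℕ) : ℝ)).charpoly =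
    X * (X ^ 4 - 40 * X ^ 3 + 129 * X ^ 2 + 384 * X - 1008) := by
  have hw : (fun a => (((Finset.univ.filter fun i => d i = a).card : ℕ) : ℝ)) =
      ![1, 2, 8, 8, 1] := by
    have : (fun a => (Finset.univ.filter fun i => d i = a).card) = ![1, 2, 8, 8, 1] := by
      decide +kernel
    ext a
    rw [show (Finset.univ.filter fun i => d i = a).card = ![1, 2, 8, 8, 1] a from congrFun this a]
    fin_cases a <;> simp
  rw [hw]
  have h2 : N.map (Nat.cast : ℕ → ℝ) * Matrix.diagonal ![(1:ℝ), 2, 8, 8, 1] =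
      !![2, 2, 8, 16, 1; 1, 4, 16, 8, 2; 1, 4, 16, 16, 1; 2, 2, 16, 16, 1; 1, 4, 8, 8, 2] := by
    ext i j
    rw [Matrix.mul_diagonal]
    fin_cases i <;> fin_cases j <;> simp [N] <;> norm_num
  rw [h2, Matrix.charpoly, Matrix.charmatrix]
  simp [Matrix.det_succ_row_zero, Fin.sum_univ_succ, Fin.succAbove, Matrix.diagonal]
  simp only [map_ofNat]
  ring

lemma Γ_charpoly : (distMatrix Γ).charpoly =
    (X ^ 16 * (X ^ 4 - 40 * X ^ 3 + 129 * X ^ 2 + 384 * X - 1008) : ℝ[X]).comp (X + C 2) := by
  rw [charpoly_blowup (by norm_num) c M, small4]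
  ext i j
  simp only [distMatrix, Matrix.of_apply, Γ_dist.2, Matrix.sub_apply, Matrix.scalar_apply,
    Matrix.diagonal_apply, f]
  by_cases h : i = j
  · subst h
    have : M (c i) (c i) = 2 := by revert i; decide +kernel
    simp [this]
  · simp [h]

lemma Ω_charpoly : (distMatrix Ω).charpoly =
    (X ^ 16 * (X ^ 4 - 40 * X ^ 3 + 129 * X ^ 2 + 384 * X - 1008) : ℝ[X]).comp (X + C 2) := by
  have h0 := charpoly_blowup (by norm_num) d N (distMatrix Ω) (by
    ext i j
    simp only [distMatrix, Matrix.of_apply, Ω_dist.2, Matrix.sub_apply, Matrix.scalar_apply,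
      Matrix.diagonal_apply, g]
    by_cases h : i = j
    · subst h
      have : N (d i) (d i) = 2 := by revert i; decide +kernel
      simp [this]
    · simp [h])
  rw [small5, ← mul_assoc, ← pow_succ] at h0
  exact h0

lemma charpoly_eq : (distMatrix Γ).charpoly = (distMatrix Ω).charpoly := by
  rw [Γ_charpoly, Ω_charpoly]

lemma Γ_bipartite : Γ.IsBipartite := by
  refine ⟨SimpleGraph.Coloring.mk (fun i => if c i = 0 ∨ c i = 3 then (0 : Fin 2) else 1) ?_⟩
  decide +kernel

lemma Ω_not_bipartite : ¬ Ω.IsBipartite := by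
  rintro ⟨C⟩
  have h1 := C.valid (show Ω.Adj 0 3 by decide +kernel)
  have h2 := C.valid (show Ω.Adj 3 19 by decide +kernel)
  have h3 := C.valid (show Ω.Adj 0 19 by decide +kernel)
  omega

/-- There are connected graphs on 20 vertices with the same distance spectrum such that one of
them is bipartite and the other one is not. -/
theorem result : ∃ Γ Ω : SimpleGraph (Fin 20), Γ.Connected ∧ Ω.Connected ∧
    distSpectrum Γ = distSpectrum Ω ∧ (distMatrix Γ).charpoly = (distMatrix Ω).charpoly ∧
    Γ.IsBipartite ∧ ¬ Ω.IsBipartite := by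
  refine ⟨Γ, Ω, Γ_dist.1, Ω_dist.1, ?_, charpoly_eq, Γ_bipartite, Ω_not_bipartite⟩
  unfold distSpectrum
  have h : (distMatrix_isHermitian Γ).eigenvalues = (distMatrix_isHermitian Ω).eigenvalues :=
    (Matrix.IsHermitian.eigenvalues_eq_eigenvalues_iff _ _).2 charpoly_eq
  rw [h]

end Pool.Agent.Results.MP_69260a_co.TwentyVertices
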